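import Pool.Agent.Helper78_OMI.Pub

/-!
# Omissible points all of whose lines have an odd number of points (MP_7e2fab_co)

`Spanned X` is the set of the lines through two points of `X`; `Omissible X x` says that `x ∈ X` and
that `X ∖ {x}` spans the same lines as `X`.
-/

namespace Pool.Agent.Results.MP_7e2fab_co.OddOmissible

open Pool.Agent.OM

/-- Let `X` be a finite set of points of the plane, not all on one line.

At most `(|X| + 1) / 2` omissible points `x` of `X` have the property that every spanned line
through `x` contains an odd number of points of `X`. In particular, if no four points of `X` are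
on one line, then `X` has at most `(|X| + 1) / 2` omissible points. -/
theorem result (X : Set (ℝ × ℝ)) (hfin : X.Finite) (hX : ¬ Collinear ℝ X) :
    2 * {x | Omissible X x ∧ ∀ L ∈ Spanned X, x ∈ L → Odd (X ∩ L).ncard}.ncard ≤ X.ncard + 1 ∧
    ((∀ L ∈ Spanned X, (X ∩ L).ncard ≤ 3) → 2 * {x | Omissible X x}.ncard ≤ X.ncard + 1) := by
  refine ⟨?_, Pool.Agent.OMI.omissible_bound X hfin hX⟩
  have h2 : {x | Omissible X x ∧ ∀ L ∈ Spanned X, x ∈ L → Odd (X ∩ L).ncard}.ncard ≤
      {x | x ∈ X ∧ ∀ L ∈ Spanned X, x ∈ L → Odd (X ∩ L).ncard}.ncard :=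
    Set.ncard_le_ncard (fun x hx => ⟨hx.1.1, hx.2⟩) (hfin.subset fun x hx => hx.1)
  exact le_trans (Nat.mul_le_mul_left 2 h2) (Pool.Agent.OMI.odd_bound X hfin hX)

end Pool.Agent.Results.MP_7e2fab_co.OddOmissible
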