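import Pool.Agent.Helper20_OMF.MainF

/-!
# Omissible points and ordinary lines (MP_7e2fab_co)

`Spanned X` is the set of the lines through two points of `X`; `Omissible X x` says that `x ∈ X` and
that `X ∖ {x}` spans the same lines as `X` (Pool.Agent.Helper43_OM.Pub). The lines `L` of
`Spanned X` with `(X ∩ L).ncard = 2` are the ordinary lines of `X`.
-/

namespace Pool.Agent.Results.MP_7e2fab_co.OmissibleFewOrdinary

open Pool.Agent.OM

/-- Let `X` be a finite set of `n` points of the plane, not all on one line, with `t` ordinary lines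
(lines with exactly two points of `X`), and let `m` be the number of the omissible points of `X`.

(1) `m ≤ n / 3 + 5300 (n t) ^ (2 / 5)`. So `m ≤ (1 / 3 + o(1)) n` if `t = o(n ^ (3 / 2))`.

(2) `m ≤ n - n ^ (3 / 4) / 180000`. -/
theorem result (X : Set (ℝ × ℝ)) (hfin : X.Finite) (hX : ¬ Collinear ℝ X) :
    ({x | Omissible X x}.ncard : ℝ) ≤ X.ncard / 3 +
      5300 * ((X.ncard : ℝ) * {L ∈ Spanned X | (X ∩ L).ncard = 2}.ncard) ^ (2 / 5 : ℝ) ∧
    ({x | Omissible X x}.ncard : ℝ) ≤ X.ncard - (X.ncard : ℝ) ^ (3 / 4 : ℝ) / 180000 :=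
  ⟨Pool.Agent.OMF.H20P.fin_real Pool.Agent.OMF.H20.main.1 X hfin hX,
    Pool.Agent.OMF.H20P.cor_real Pool.Agent.OMF.H20.main.2 X hfin hX⟩

end Pool.Agent.Results.MP_7e2fab_co.OmissibleFewOrdinary
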