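import Pool.Agent.Helper81_NC.FIN
import Pool.Agent.Helper81_NC.GDA
import Pool.Agent.Helper51_NC.CHN
import Pool.Agent.Helper69_NC.KIT
import Pool.Agent.Helper60_NC.TAN
import Pool.Agent.Helper39_NC.CLO
import Pool.Agent.Helper27_NC.FLX
import Pool.Agent.Helper56_NC.LIN
import Pool.Agent.Helper10_NC.POL

/-!
# Omissible points of sets close to a cubic curve (MP_7e2fab_co)

`Spanned X` is the set of the lines through two points of `X`; `Omissible X x` says that `x ∈ X` and
that `X ∖ {x}` spans the same lines as `X` (Pool.Agent.Helper43_OM.Pub).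
-/

namespace Pool.Agent.Results.MP_7e2fab_co.OmissibleNearCubic

open Pool.Agent.OM Pool.Agent.NCub

/-- Let `X` be a finite set of `n` points of the plane, not all on one line, and let `P` be a nonzero
real polynomial in two variables of total degree at most 3. If exactly `f` points of `X` are not on
the curve `P = 0`, then `X` has at most `(n + 33 f + 60) / 3` omissible points. -/
theorem result (X : Set (ℝ × ℝ)) (hfin : X.Finite) (hX : ¬ Collinear ℝ X)
    (P : MvPolynomial (Fin 2) ℝ) (hP : P ≠ 0) (hdeg : P.totalDegree ≤ 3) :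
    3 * {x | Omissible X x}.ncard ≤
      X.ncard + 33 * {x ∈ X | MvPolynomial.eval ![x.1, x.2] P ≠ 0}.ncard + 60 :=
  H81.fin (H81.gda H69.kit H60.tan H27.flx) (H51.chn H69.kit H39.clo H60.tan) H56.lin H10.pol
    X hfin hX P hP hdeg

end Pool.Agent.Results.MP_7e2fab_co.OmissibleNearCubic
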