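import Pool.Agent.Helper43_OM.Pub

/-!
# Omissible points lying on few lines, or on rich lines (MP_7e2fab_co)

`Spanned X` is the set of the lines through two points of `X`; `Omissible X x` says that `x ∈ X` and
that `X ∖ {x}` spans the same lines as `X`; `IsLine L` says that `L` is a line of the plane.
-/

namespace Pool.Agent.Results.MP_7e2fab_co.OmissibleOnLines

open Pool.Agent.OM

/-- Let `X` be a finite set of points of the plane, not all on one line.

(1) At most `(|X| + 4 t (t - 1)) / 3` omissible points of `X` lie on the union of any `t` lines.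

(2) If `k ^ 2 ≥ 4 |X|`, then at most `|X| / 3 + 3 |X| ^ 2 / k ^ 2` omissible points of `X` lie on
lines containing at least `k` points of `X`. -/
theorem result (X : Set (ℝ × ℝ)) (hfin : X.Finite) (hX : ¬ Collinear ℝ X) :
    (∀ (t : ℕ) (L : Fin t → AffineSubspace ℝ (ℝ × ℝ)), (∀ i, IsLine (L i)) →
      3 * {x | Omissible X x ∧ ∃ i, x ∈ L i}.ncard ≤ X.ncard + 4 * t * (t - 1)) ∧
    (∀ k : ℕ, 4 * X.ncard ≤ k ^ 2 →
      ({x | Omissible X x ∧ ∃ L : AffineSubspace ℝ (ℝ × ℝ), IsLine L ∧ x ∈ L ∧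
        k ≤ (X ∩ L).ncard}.ncard : ℝ) ≤ X.ncard / 3 + 3 * (X.ncard : ℝ) ^ 2 / k ^ 2) :=
  ⟨on_lines X hfin hX, on_rich X hfin hX⟩

end Pool.Agent.Results.MP_7e2fab_co.OmissibleOnLines
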